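import Mathlib
import Pool.Agent.Lib.H8.Arith

set_option maxHeartbeats 400000

namespace Pool.Agent.Results.MP_18fff8_lc.No

open Pool.Agent.Lib.H8.Arith

/-- A relational structure with universe a subset of `ℕ`; `rel i` interprets symbol `i`
(only tuples from `U` of the right length matter). -/
structure Str where
  U : Set ℕ
  rel : ℕ → List ℕ → Prop

section Defs
-- The language: `ar i = some k` means that `i` is a relation symbol of arity `k`.
variable (ar : ℕ → Option ℕ)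

/-- `f` preserves and reflects all relations of the language on tuples from `A`. -/
def Pres (A B : Str) (f : ℕ → ℕ) : Prop :=
  ∀ i l, ar i = some l.length → (∀ x ∈ l, x ∈ A.U) → (A.rel i l ↔ B.rel i (l.map f))

def Emb (A B : Str) : Prop := ∃ f, Set.MapsTo f A.U B.U ∧ Set.InjOn f A.U ∧ Pres ar A B f

def Iso (A B : Str) : Prop := ∃ f, Set.BijOn f A.U B.U ∧ Pres ar A B f

/-- The atomic diagram. `(k, s, l)` codes `a = b` (`k = 0`, `l = [a, b]`) or `R_i l` (`k = i + 1`),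
positively if `s = 1` and negated if `s = 0`; all constants come from the universe. -/
def Diag (A : Str) (t : ℕ × ℕ × List ℕ) : Prop :=
  (∀ x ∈ t.2.2, x ∈ A.U) ∧
    ((t.1 = 0 ∧ ∃ a b, t.2.2 = [a, b] ∧ ((t.2.1 = 1 ∧ a = b) ∨ (t.2.1 = 0 ∧ a ≠ b))) ∨
      ∃ i, t.1 = i + 1 ∧ ar i = some t.2.2.length ∧
        ((t.2.1 = 1 ∧ A.rel i t.2.2) ∨ (t.2.1 = 0 ∧ ¬ A.rel i t.2.2)))

/-- The `e`-th function in the standard numbering of the Turing computable functions `ℕ →. ℕ`. -/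
def phi (e : ℕ) : ℕ →. ℕ := (Denumerable.ofNat Nat.Partrec.Code e).eval

/-- `φ_e` is the characteristic function of the atomic diagram of `A`. -/
def Computes (e : ℕ) (A : Str) : Prop :=
  ∀ t : ℕ × ℕ × List ℕ, (Diag ar A t → 1 ∈ phi e (Encodable.encode t)) ∧
    (¬ Diag ar A t → 0 ∈ phi e (Encodable.encode t))

/-- The index set `I_K`. -/
def Idx (K : Str → Prop) : Set ℕ := {e | ∃ A, K A ∧ Computes ar e A}

/-- Bi-embeddability of the computable members of `K`, on indices. -/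
def BiEmb (K : Str → Prop) (e e' : ℕ) : Prop :=
  ∃ A B, K A ∧ K B ∧ Computes ar e A ∧ Computes ar e' B ∧ Emb ar A B ∧ Emb ar B A

end Defs

/-- Computable reducibility of `E` on `X` to `F` on `Y`. -/
def Red (X : Set ℕ) (E : ℕ → ℕ → Prop) (Y : Set ℕ) (F : ℕ → ℕ → Prop) : Prop :=
  ∃ f : ℕ →. ℕ, Partrec f ∧ (∀ x ∈ X, ∃ y ∈ f x, y ∈ Y) ∧
    ∀ x ∈ X, ∀ x' ∈ X, ∀ y ∈ f x, ∀ y' ∈ f x', (E x x' ↔ F y y')

/-- `Σ¹₁` subsets of `ω²`, in Kleene normal form. -/
def Sigma11 (E : ℕ → ℕ → Prop) : Prop :=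
  ∃ R : (ℕ × ℕ) × List ℕ → Prop, ComputablePred R ∧
    ∀ x y, E x y ↔ ∃ f : ℕ → ℕ, ∀ n, R ((x, y), (List.range n).map f)

variable {ar : ℕ → Option ℕ}

lemma diag_map {A B : Str} {f : ℕ → ℕ} (h1 : Set.MapsTo f A.U B.U) (h2 : Set.InjOn f A.U)
    (h3 : Pres ar A B f) (k s : ℕ) {l : List ℕ} (hl : ∀ x ∈ l, x ∈ A.U) :
    Diag ar A (k, s, l) ↔ Diag ar B (k, s, l.map f) := by
  have hl' : ∀ x ∈ l.map f, x ∈ B.U := by
    intro x hx
    obtain ⟨y, hy, rfl⟩ := List.mem_map.1 hx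
    exact h1 (hl y hy)
  simp only [Diag, List.length_map]
  refine and_congr ⟨fun _ => hl', fun _ => hl⟩ (or_congr (and_congr_right fun _ => ?_) ?_)
  · constructor
    · rintro ⟨a, b, rfl, h⟩
      refine ⟨f a, f b, rfl, ?_⟩
      rwa [Ne, h2.eq_iff (hl a (by simp)) (hl b (by simp))]
    · rintro ⟨a, b, e, h⟩
      match l, e with
      | [x, y], e =>
        simp only [List.map_cons, List.map_nil, List.cons.injEq, and_true] at e
        obtain ⟨rfl, rfl⟩ := e
        refine ⟨x, y, rfl, ?_⟩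
        rwa [Ne, h2.eq_iff (hl x (by simp)) (hl y (by simp))] at h
  · refine exists_congr fun i => and_congr_right fun _ => and_congr_right fun hi => ?_
    rw [h3 i l hi hl]

lemma emb_of_comp {e : ℕ} {A B : Str} (hA : Computes ar e A) (hB : Computes ar e B) :
    Emb ar A B := by
  have key : ∀ t, Diag ar A t ↔ Diag ar B t := fun t =>
    ⟨fun h => by_contra fun h' => one_ne_zero (Part.mem_unique ((hA t).1 h) ((hB t).2 h')),
      fun h => by_contra fun h' => one_ne_zero (Part.mem_unique ((hB t).1 h) ((hA t).2 h'))⟩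
  have hU : ∀ x ∈ A.U, x ∈ B.U := fun x hx =>
    ((key (0, 1, [x, x])).1 ⟨by simpa using hx, Or.inl ⟨rfl, x, x, rfl, Or.inl ⟨rfl, rfl⟩⟩⟩).1
      x (by simp)
  refine ⟨id, hU, Set.injOn_id _, fun i l hi hl => ?_⟩
  have := key (i + 1, 1, l)
  simp only [Diag, Nat.add_right_cancel_iff, exists_eq_left', hi] at this
  simpa [hl, (fun x hx => hU x (hl x hx) : ∀ x ∈ l, x ∈ B.U), eq_true hl,
    eq_true (fun x hx => hU x (hl x hx) : ∀ x ∈ l, x ∈ B.U)] using this

lemma Emb.trans {A B C : Str} (h : Emb ar A B) (h' : Emb ar B C) : Emb ar A C := by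
  obtain ⟨f, f1, f2, f3⟩ := h
  obtain ⟨g, g1, g2, g3⟩ := h'
  refine ⟨g ∘ f, g1.comp f1, g2.comp f2 f1, fun i l hi hl => ?_⟩
  rw [f3 i l hi hl, g3 i (l.map f) (by simpa using hi) (by
    intro x hx
    obtain ⟨y, hy, rfl⟩ := List.mem_map.1 hx
    exact f1 (hl y hy)), List.map_map]

lemma Iso.symm {A B : Str} (h : Iso ar A B) : Iso ar B A := by
  obtain ⟨f, f1, f3⟩ := h
  refine ⟨Function.invFunOn f A.U, f1.invOn_invFunOn.symm.bijOn f1.surjOn.mapsTo_invFunOn f1.mapsTo,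
    fun i l hi hl => ?_⟩
  rw [f3 i (l.map _) (by simpa using hi) (by
    intro x hx
    obtain ⟨y, hy, rfl⟩ := List.mem_map.1 hx
    exact f1.surjOn.mapsTo_invFunOn (hl y hy)), List.map_map, List.map_congr_left
      (f := f ∘ Function.invFunOn f A.U) (g := id)
      (fun x hx => f1.invOn_invFunOn.2 (hl x hx)), List.map_id]

lemma Iso.emb {A B : Str} (h : Iso ar A B) : Emb ar A B :=
  let ⟨f, f1, f3⟩ := h
  ⟨f, f1.mapsTo, f1.injOn, f3⟩

def q (L : List ℕ) (a : ℕ) : ℕ :=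
  if a < L.length then L.getD a 0 else if a - L.length + 1 ∈ L then 0 else a - L.length + 1

def Valid (L : List ℕ) : Prop :=
  ∀ i < L.length, ∀ j < L.length, L.getD i 0 = L.getD j 0 → L.getD i 0 = 0 ∨ i = j

def Dq (ar : ℕ → Option ℕ) (A : Str) (L : List ℕ) (t : ℕ × ℕ × List ℕ) : Prop :=
  (∀ a ∈ t.2.2, ¬ q L a = 0) ∧ Diag ar A (t.1, t.2.1, t.2.2.map fun a => q L a - 1)

lemma q_surj (L : List ℕ) (v : ℕ) : ∃ a, q L a = v + 1 := by
  by_cases h : v + 1 ∈ L
  · obtain ⟨i, hi, e⟩ := List.getElem_of_mem h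
    exact ⟨i, by simp [q, hi, e]⟩
  · exact ⟨L.length + v, by simp [q, h]⟩

lemma q_inj {L : List ℕ} (hL : Valid L) {a b : ℕ} (h0 : q L a ≠ 0) (h : q L a = q L b) : a = b := by
  have hm : ∀ c, c < L.length → L.getD c 0 ∈ L := fun c hc => by
    rw [List.getD_eq_getElem _ _ hc]; exact List.getElem_mem hc
  unfold q at h0 h
  split_ifs at h0 h with h1 h2 h3 h4 h5 h6 h7
  · exact (hL a h1 b h2 h).resolve_left h0
  · exact absurd h h0
  · exact absurd (h ▸ hm a h1) h3
  all_goals first | exact absurd rfl h0 | omega | exact absurd (h ▸ hm b ‹_›) ‹_›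

lemma copy (A : Str) {L : List ℕ} (hL : Valid L) :
    ∃ A', Iso ar A' A ∧ ∀ t, Diag ar A' t ↔ Dq ar A L t := by
  let A' : Str := ⟨{a | q L a ≠ 0 ∧ q L a - 1 ∈ A.U},
    fun i l => A.rel i (l.map fun a => q L a - 1)⟩
  have hb : Set.BijOn (fun a => q L a - 1) A'.U A.U := by
    refine ⟨fun a ha => ha.2, fun a ha b hb e => q_inj hL ha.1 ?_, fun v hv => ?_⟩
    · have := ha.1; have := hb.1; simp only at e; omega
    · obtain ⟨a, ha⟩ := q_surj L v
      exact ⟨a, ⟨by simp [ha], by simpa [ha] using hv⟩, by simp [ha]⟩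
  have hp : Pres ar A' A fun a => q L a - 1 := fun _ _ _ _ => Iff.rfl
  refine ⟨A', ⟨_, hb, hp⟩, fun ⟨k, s, l⟩ => ⟨fun h => ⟨fun a ha => (h.1 a ha).1,
    (diag_map hb.mapsTo hb.injOn hp k s h.1).1 h⟩, fun h => ?_⟩⟩
  exact (diag_map hb.mapsTo hb.injOn hp k s fun a ha =>
    ⟨h.1 a ha, h.2.1 _ (List.mem_map_of_mem ha)⟩).2 h.2

abbrev dec (c : ℕ) : ℕ × ℕ × List ℕ := Denumerable.ofNat _ c

def Agree (ar : ℕ → Option ℕ) (B C : Str) (s : ℕ) (L : List ℕ) : Prop :=
  Valid L ∧ ∀ c < s, (∀ a ∈ (dec c).2.2, a < L.length) ∧ (Dq ar C L (dec c) ↔ Diag ar B (dec c))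

lemma agree_self (B : Str) (s : ℕ) : ∃ L, Agree ar B B s L := by
  obtain ⟨N, hN⟩ : ∃ N, ∀ c < s, ∀ a ∈ (dec c).2.2, a < N := by
    refine ⟨∑ c ∈ Finset.range s, (dec c).2.2.sum + 1, fun c hc a ha => ?_⟩
    have h1 := List.single_le_sum (l := (dec c).2.2) (by simp) a ha
    have h2 := Finset.single_le_sum (f := fun c => (dec c).2.2.sum) (fun _ _ => Nat.zero_le _)
      (Finset.mem_range.2 hc)
    omega
  have hq : ∀ a < N, q ((List.range N).map (· + 1)) a = a + 1 := fun a ha => by simp [q, ha]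
  refine ⟨(List.range N).map (· + 1), fun i hi j hj h => Or.inr ?_, fun c hc =>
    ⟨by simpa using hN c hc, ?_⟩⟩
  · rw [List.getD_eq_getElem _ _ hi, List.getD_eq_getElem _ _ hj] at h
    simpa using h
  · unfold Dq
    rw [List.map_congr_left (l := (dec c).2.2) (g := id)
      fun a ha => by simp [hq a (hN c hc a ha)], List.map_id]
    exact and_iff_right fun a ha => by simp [hq a (hN c hc a ha)]

lemma agree_up {B C C' : Str} (h : Emb ar C C') {s : ℕ} {L : List ℕ} (hL : Agree ar B C s L) :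
    ∃ L', Agree ar B C' s L' := by
  classical
  obtain ⟨f, f1, f2, f3⟩ := h
  let g : ℕ → ℕ := fun v => if v ≠ 0 ∧ v - 1 ∈ C.U then f (v - 1) + 1 else 0
  have hget : ∀ i < L.length, (L.map g).getD i 0 = g (L.getD i 0) := fun i hi => by
    simp [List.getD_eq_getElem?_getD, hi]
  have hq : ∀ a < L.length, q (L.map g) a = g (q L a) := fun a ha => by
    simp only [q, List.length_map, if_pos ha, hget a ha]
  refine ⟨L.map g, fun i hi j hj e => ?_, fun c hc => ⟨by simpa using (hL.2 c hc).1, ?_⟩⟩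
  · rw [List.length_map] at hi hj
    rw [hget i hi, hget j hj] at e
    rw [hget i hi]
    by_cases h0 : g (L.getD i 0) = 0
    · exact Or.inl h0
    · have h1 : g (L.getD j 0) ≠ 0 := e ▸ h0
      simp only [g] at h0 h1 e
      split_ifs at h0 h1 e with h2 h3
      · have := f2 h2.2 h3.2 (by omega)
        exact Or.inr ((hL.1 i hi j hj (by omega)).resolve_left h2.1)
      all_goals exact absurd rfl h1
  · rw [← (hL.2 c hc).2]
    have hl := (hL.2 c hc).1
    generalize dec c = t at hl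
    obtain ⟨k, s', l⟩ := t
    have main : (∀ a ∈ l, q L a ≠ 0 ∧ q L a - 1 ∈ C.U) →
        (Diag ar C' (k, s', l.map fun a => q (L.map g) a - 1) ↔
          Diag ar C (k, s', l.map fun a => q L a - 1)) := by
      intro h
      rw [diag_map f1 f2 f3 k s' (by
        intro x hx
        obtain ⟨y, hy, rfl⟩ := List.mem_map.1 hx
        exact (h y hy).2), List.map_map, List.map_congr_left]
      intro a ha
      simp [hq a (hl a ha), g, h a ha]
    constructor
    · rintro ⟨h1, h2⟩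
      have h3 : ∀ a ∈ l, q L a ≠ 0 ∧ q L a - 1 ∈ C.U := fun a ha => by
        have := h1 a ha
        rw [hq a (hl a ha)] at this
        by_contra hc'
        exact this (if_neg hc')
      exact ⟨fun a ha => (h3 a ha).1, (main h3).1 h2⟩
    · rintro ⟨h1, h2⟩
      have h3 : ∀ a ∈ l, q L a ≠ 0 ∧ q L a - 1 ∈ C.U := fun a ha =>
        ⟨h1 a ha, h2.1 _ (List.mem_map_of_mem ha)⟩
      exact ⟨fun a ha => by simp [hq a (hl a ha), g, h3 a ha], (main h3).2 h2⟩

open Primrec in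
lemma q_prim : Primrec₂ q := by
  have hmem : PrimrecRel fun (L : List ℕ) (m : ℕ) => m ∈ L :=
    (PrimrecRel.exists_mem_list Primrec.eq).of_eq fun L m => by simp
  have h1 : Primrec fun p : List ℕ × ℕ => p.2 - p.1.length + 1 :=
    succ.comp (nat_sub.comp snd (list_length.comp fst))
  exact Primrec.ite (nat_lt.comp snd (list_length.comp fst)) (list_getD 0)
    (Primrec.ite (hmem.comp fst h1) (const 0) h1)

open Primrec in
lemma valid_prim : PrimrecPred Valid := by
  have g1 : Primrec fun p : ℕ × ℕ × List ℕ => p.2.2.getD p.2.1 0 :=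
    (list_getD 0).comp (snd.comp snd) (fst.comp snd)
  have h1 : PrimrecRel fun (j : ℕ) (p : ℕ × List ℕ) =>
      p.2.getD p.1 0 = p.2.getD j 0 → p.2.getD p.1 0 = 0 ∨ p.1 = j :=
    ((Primrec.eq.comp g1 ((list_getD 0).comp (snd.comp snd) fst)).not.or
      ((Primrec.eq.comp g1 (const 0)).or (Primrec.eq.comp (fst.comp snd) fst))).of_eq
        fun p => by tauto
  have h2 : PrimrecRel fun (i : ℕ) (l : List ℕ) => ∀ j < l.length,
      l.getD i 0 = l.getD j 0 → l.getD i 0 = 0 ∨ i = j :=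
    (h1.forall_mem_list.comp (list_range.comp (list_length.comp snd)) Primrec.id).of_eq
      fun p => by simp
  exact (h2.forall_mem_list.comp (list_range.comp list_length) Primrec.id).of_eq
    fun p => by simp [Valid]

lemma sig_not {α : Type} [Primcodable α] {P : α → Prop} (h : Sig 0 α P) : Sig 0 α fun a => ¬ P a :=
  ComputablePred.not h

section Family
variable {M : ℕ → Str} {f : ℕ → ℕ} (hf : Computable f) (hM : ∀ x, Computes ar (f x) (M x))
include hf hM

lemma diag_sig : Sig 0 (ℕ × ℕ × ℕ × List ℕ) fun p => Diag ar (M p.1) p.2 := by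
  classical
  have h : Partrec fun p : ℕ × ℕ × ℕ × List ℕ => phi (f p.1) (Encodable.encode p.2) :=
    Nat.Partrec.Code.eval_part.comp ((Primrec.ofNat _).to_comp.comp (hf.comp Computable.fst))
      (Computable.encode.comp Computable.snd)
  have h2 : Computable fun p : ℕ × ℕ × ℕ × List ℕ => if Diag ar (M p.1) p.2 then 1 else 0 :=
    h.of_eq_tot fun p => by
      split_ifs with h'
      exacts [(hM _ _).1 h', (hM _ _).2 h']
  exact ((Sig.prim (n := 0) (Primrec.eq.comp Primrec.id (Primrec.const 1))).comp h2).of_eq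
    fun p => by simp

lemma dq_sig : Sig 0 ((ℕ × List ℕ) × ℕ × ℕ × List ℕ) fun p => Dq ar (M p.1.1) p.1.2 p.2 := by
  have hl : Primrec fun p : (ℕ × List ℕ) × ℕ × ℕ × List ℕ => p.2.2.2 :=
    Primrec.snd.comp (Primrec.snd.comp Primrec.snd)
  have h1 : PrimrecRel fun (a : ℕ) (L : List ℕ) => ¬ q L a = 0 :=
    (Primrec.eq.comp (q_prim.comp Primrec.snd Primrec.fst) (Primrec.const 0)).not
  refine (Sig.prim (h1.forall_mem_list.comp hl (Primrec.snd.comp Primrec.fst))).and
    ((diag_sig hf hM).comp ((Primrec.fst.comp Primrec.fst).pair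
      ((Primrec.fst.comp Primrec.snd).pair ((Primrec.fst.comp (Primrec.snd.comp Primrec.snd)).pair
        (Primrec.list_map hl (Primrec.nat_sub.comp (q_prim.comp (Primrec.snd.comp
          (Primrec.fst.comp Primrec.fst)) Primrec.snd) (Primrec.const 1)).to₂)))).to_comp)

lemma agree_sig (y : ℕ) :
    Sig 0 ((ℕ × ℕ) × List ℕ) fun p => Agree ar (M y) (M p.1.1) p.1.2 p.2 := by
  have hd : Primrec fun p : ((ℕ × ℕ) × List ℕ) × ℕ => dec p.2 := (Primrec.ofNat _).comp Primrec.snd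
  have h1 : PrimrecRel fun (a : ℕ) (L : List ℕ) => a < L.length :=
    Primrec.nat_lt.comp Primrec.fst (Primrec.list_length.comp Primrec.snd)
  have h2 := (dq_sig hf hM).comp (((Primrec.fst.comp (Primrec.fst.comp Primrec.fst)).pair
    (Primrec.snd.comp Primrec.fst)).pair hd).to_comp
  have h3 := (diag_sig hf hM).comp ((Primrec.const y).pair hd).to_comp
  have h4 := (Sig.prim (h1.forall_mem_list.comp (Primrec.snd.comp (Primrec.snd.comp hd))
    (Primrec.snd.comp Primrec.fst))).and ((h2.and h3).or ((sig_not h2).and (sig_not h3)))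
  refine ((Sig.prim (valid_prim.comp Primrec.snd)).and
    (h4.ball (Computable.snd.comp Computable.fst))).of_eq fun p => ?_
  refine and_congr_right fun _ => forall₂_congr fun c _ => and_congr_right fun _ => ?_
  simp only
  tauto

lemma switch (x y : ℕ) (hsub : ∀ s, ∃ L, Agree ar (M y) (M x) s L) {C : ℕ → Prop}
    (hC : Sig 1 ℕ C) : ∃ h : ℕ → ℕ, Computable h ∧ ∀ n,
      (C n → ∃ A', Iso ar A' (M x) ∧ Computes ar (h n) A') ∧ (¬ C n → Computes ar (h n) (M y)) := by
  classical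
  obtain ⟨B, hB, eC⟩ := hC
  have hex : ∀ s, ∃ c, Agree ar (M y) (M x) s (Denumerable.ofNat (List ℕ) c) := fun s => by
    obtain ⟨L, hL⟩ := hsub s
    exact ⟨Encodable.encode L, by simpa using hL⟩
  have hF : Computable fun s => Denumerable.ofNat (List ℕ) (Nat.find (hex s)) :=
    (Primrec.ofNat _).to_comp.comp (Computable.find
      (P := fun s c => Agree ar (M y) (M x) s (Denumerable.ofNat (List ℕ) c))
      ((agree_sig hf hM y).comp (((Primrec.const x).pair Primrec.fst).pair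
        ((Primrec.ofNat _).comp Primrec.snd)).to_comp) hex)
  obtain ⟨F, hF, hFs⟩ : ∃ F : ℕ → List ℕ, Computable F ∧ ∀ s, Agree ar (M y) (M x) s (F s) :=
    ⟨_, hF, fun s => Nat.find_spec (hex s)⟩
  have hB' : Sig 0 (ℕ × ℕ) B := (sig_not hB).of_eq fun p => by simp
  have hd : Computable fun p : ℕ × ℕ => dec p.2 := ((Primrec.ofNat _).comp Primrec.snd).to_comp
  have h1 : Sig 0 ((ℕ × ℕ) × ℕ) fun r => (B (r.1.1, r.2) ∧ ∀ z < r.2, ¬ B (r.1.1, z)) ∧
      Dq ar (M x) (F r.2) (dec r.1.2) :=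
    ((hB'.and (bdd 0 hB).1).comp ((Computable.fst.comp Computable.fst).pair Computable.snd)).and
      ((dq_sig hf hM).comp (((Computable.const x).pair (hF.comp Computable.snd)).pair
        (hd.comp Computable.fst)))
  have h2 := ((bdd 0 h1).2.comp (Computable.id.pair (Computable.succ.comp Computable.snd))).or
    (((bdd 0 hB).1.comp (Computable.fst.pair (Computable.succ.comp Computable.snd))).and
      ((diag_sig hf hM).comp ((Computable.const y).pair hd)))
  obtain ⟨H, hH, eH⟩ : ∃ H : ℕ × ℕ → Prop, ComputablePred H ∧ ∀ n c, H (n, c) ↔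
      (∃ z < c + 1, (B (n, z) ∧ ∀ z' < z, ¬ B (n, z')) ∧ Dq ar (M x) (F z) (dec c)) ∨
        ((∀ z < c + 1, ¬ B (n, z)) ∧ Diag ar (M y) (dec c)) := ⟨_, h2, fun _ _ => Iff.rfl⟩
  have h3 : Computable fun p => if H p then 1 else 0 :=
    (hH.decide.cond (Computable.const 1) (Computable.const 0)).of_eq fun p => by
      by_cases h : H p <;> simp [h]
  obtain ⟨h, hh, eh⟩ := smn h3.partrec
  have key : ∀ n A, (∀ c, H (n, c) ↔ Diag ar A (dec c)) → Computes ar (h n) A := by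
    intro n A hA t
    have := hA (Encodable.encode t)
    rw [dec, Denumerable.ofNat_encode] at this
    simp only [phi, eh, PFun.coe_val, this]
    constructor <;> intro h' <;> simp [h']
  refine ⟨h, hh, fun n => ⟨fun hn => ?_, fun hn => key n _ fun c => ?_⟩⟩
  · have hz := (eC n).1 hn
    obtain ⟨A', hi, hA'⟩ := copy (ar := ar) (M x) (hFs (Nat.find hz)).1
    refine ⟨A', hi, key n _ fun c => ?_⟩
    rw [eH, hA']
    constructor
    · rintro (⟨z, -, ⟨h4, h5⟩, h6⟩ | ⟨h4, h5⟩)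
      · rwa [(Nat.find_eq_iff hz).2 ⟨h4, h5⟩]
      · refine (((hFs _).2 c ?_).2).2 h5
        by_contra hc
        exact h4 _ (by omega) (Nat.find_spec hz)
    · intro h4
      by_cases hc : c < Nat.find hz
      · exact Or.inr ⟨fun z hz' => Nat.find_min hz (by omega), (((hFs _).2 c hc).2).1 h4⟩
      · exact Or.inl ⟨_, by omega, ⟨Nat.find_spec hz, fun z' h' => Nat.find_min hz h'⟩, h4⟩
  · have hn' : ∀ z, ¬ B (n, z) := fun z hz => hn ((eC n).2 ⟨z, hz⟩)
    simp [eH, hn']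

end Family

lemma total {f : ℕ →. ℕ} (hf : Partrec f) {h : ℕ → ℕ} (hh : Computable h) {P : ℕ → Prop}
    (hd : ∀ n, ∃ y ∈ f (h n), P y) : ∃ r : ℕ → ℕ, Computable r ∧ ∀ n, r n ∈ f (h n) ∧ P (r n) := by
  choose r h1 h2 using hd
  exact ⟨r, (hf.comp hh).of_eq_tot h1, fun n => ⟨h1 n, h2 n⟩⟩

theorem result : ∃ E : ℕ → ℕ → Prop, Equivalence E ∧ Sigma11 E ∧
    ∀ (ar : ℕ → Option ℕ) (K : Str → Prop), (∀ A B, Iso ar A B → K A → K B) →
      ¬ (Red Set.univ E (Idx ar K) (BiEmb ar K) ∧ Red (Idx ar K) (BiEmb ar K) Set.univ E) := by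
  obtain ⟨S, hS, hinf, hmeet⟩ := simple 0
  obtain ⟨C, hC, hinc⟩ := incomplete 0 hmeet
  have hns : ¬ Sig 1 ℕ fun m => ¬ S m := fun h' => by
    obtain ⟨a, h1, h2⟩ := hmeet _ h' hinf
    exact h1 h2
  have htrue : Sig 1 ℕ fun _ => True :=
    Sig.prim ((Primrec.eq.comp (Primrec.const 0) (Primrec.const 0)).of_eq fun _ => by simp)
  refine ⟨fun x y => S x ↔ S y, ⟨fun _ => Iff.rfl, Iff.symm, Iff.trans⟩, ?_, ?_⟩
  · have h2 : Sig 2 (ℕ × ℕ) fun p => (S p.1 ∧ S p.2) ∨ (¬ S p.1 ∧ ¬ S p.2) :=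
      ((hS.comp Computable.fst).and (hS.comp Computable.snd)).succ.or
        ((hS.comp Computable.fst).neg_succ.and (hS.comp Computable.snd).neg_succ)
    obtain ⟨B, ⟨D, hD, eD⟩, eB⟩ := h2
    refine ⟨fun p => p.2.length = 0 ∨ ¬ D ((p.1, p.2.getD 0 0), p.2.length - 1),
      (Sig.prim (n := 0) (Primrec.eq.comp (Primrec.list_length.comp Primrec.snd)
        (Primrec.const 0))).or (hD.comp ((Primrec.fst.pair ((Primrec.list_getD 0).comp Primrec.snd
        (Primrec.const 0))).pair (Primrec.nat_sub.comp (Primrec.list_length.comp Primrec.snd)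
          (Primrec.const 1))).to_comp), fun x y => ?_⟩
    have e1 : (S x ↔ S y) ↔ ∃ z, ∀ w, ¬ D (((x, y), z), w) := by
      have h3 := eB (x, y)
      have h4 : ∀ z, B ((x, y), z) ↔ ∀ w, ¬ D (((x, y), z), w) := fun z => by
        rw [← not_exists, ← eD, not_not]
      simp only [h4] at h3
      rw [← h3]
      tauto
    refine e1.trans ⟨fun ⟨z, hz⟩ => ⟨fun _ => z, fun n => ?_⟩, fun ⟨g, hg⟩ => ⟨g 0, fun w => ?_⟩⟩
    · cases n with
      | zero => simp
      | succ n => simpa using hz n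
    · simpa using hg (w + 1)
  rintro ar K hK ⟨⟨f', hf', hf1, hf2⟩, g, hg, hg1, hg2⟩
  obtain ⟨f, hf, hf3⟩ := total hf' Computable.id (P := (· ∈ Idx ar K)) fun n => hf1 n trivial
  choose M hMK hM using fun n => (hf3 n).2
  have hE : ∀ x y, (S x ↔ S y) ↔ BiEmb ar K (f x) (f y) :=
    fun x y => hf2 x trivial y trivial _ (hf3 x).1 _ (hf3 y).1
  have hemb : ∀ x y, (S x ↔ S y) → Emb ar (M x) (M y) := fun x y h => by
    obtain ⟨A, B, -, -, hA, hB, h1, -⟩ := (hE x y).1 h
    exact ((emb_of_comp (hM x) hA).trans h1).trans (emb_of_comp hB (hM y))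
  obtain ⟨x, -, hx⟩ := hmeet _ htrue Set.infinite_univ
  obtain ⟨y, hy⟩ := hinf.nonempty
  have hsub : ∀ s, ∃ L, Agree ar (M y) (M x) s L := by
    intro s
    by_contra hs
    refine hns ((Sig.exd ((agree_sig hf hM y).comp ((Computable.fst.pair
      (Computable.const s)).pair Computable.snd)).succ).of_eq fun z => ⟨fun ⟨L, hL⟩ hz => ?_,
        fun hz => ?_⟩)
    · exact hs (agree_up (hemb z x (iff_of_true hz hx)) hL)
    · obtain ⟨L, hL⟩ := agree_self (ar := ar) (M y) s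
      exact agree_up (hemb y z (iff_of_false hy hz)) hL
  obtain ⟨h, hh, eh⟩ := switch hf hM x y hsub hC
  have hI : ∀ n, h n ∈ Idx ar K := fun n => by
    by_cases hn : C n
    · obtain ⟨A', hi, hA'⟩ := (eh n).1 hn
      exact ⟨A', hK _ _ hi.symm (hMK x), hA'⟩
    · exact ⟨_, hMK y, (eh n).2 hn⟩
  obtain ⟨r, hr, er⟩ := total hg hh (P := (· ∈ Set.univ)) fun n => hg1 _ (hI n)
  obtain ⟨u, hu, -⟩ := hg1 _ (hf3 x).2
  obtain ⟨v, hv, -⟩ := hg1 _ (hf3 y).2
  have huv : ¬ (S u ↔ S v) := fun h' =>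
    hy (((hE x y).2 ((hg2 _ (hf3 x).2 _ (hf3 y).2 u hu v hv).2 h')).1 hx)
  have h1 : ∀ n, C n → (S (r n) ↔ S u) := fun n hn => by
    obtain ⟨A', hi, hA'⟩ := (eh n).1 hn
    exact (hg2 _ (hI n) _ (hf3 x).2 _ (er n).1 u hu).1
      ⟨A', M x, hK _ _ hi.symm (hMK x), hMK x, hA', hM x, hi.emb, hi.symm.emb⟩
  have h2 : ∀ n, ¬ C n → (S (r n) ↔ S v) := fun n hn =>
    (hg2 _ (hI n) _ (hf3 y).2 _ (er n).1 v hv).1
      ⟨M y, M y, hMK y, hMK y, (eh n).2 hn, hM y, emb_of_comp (hM y) (hM y),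
        emb_of_comp (hM y) (hM y)⟩
  have hG : Sig 1 (ℕ × ℕ) fun p => r p.1 = p.2 :=
    (Sig.prim Primrec.eq).comp ((hr.comp Computable.fst).pair Computable.snd)
  by_cases hSu : S u
  · refine hinc (fun _ => False) _ (Sig.prim
      ((Primrec.eq.comp (Primrec.const 0) (Primrec.const 1)).of_eq fun _ => by simp)) hG
      (fun e m m' a b => a.symm.trans b) (fun e he => he.elim)
      (fun e m (a : r e = m) b c => b (a ▸ (h1 e c).2 hSu)) fun e he _ => ⟨r e, rfl, fun h' => ?_⟩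
    exact huv (iff_of_true hSu ((h2 e he).1 h'))
  · have hSv : S v := by tauto
    refine hinc (fun e => S (r e)) (fun p => S (r p.1) ∧ r p.1 = p.2)
      (hS.comp hr) (((hS.comp hr).comp Computable.fst).and hG)
      (fun e m m' a b => a.2.symm.trans b.2) (fun e he c => hSu ((h1 e c).1 he))
      (fun e m a _ c => hSu ((h1 e c).1 a.1)) fun e he hq => absurd ((h2 e he).2 hSv) hq

end Pool.Agent.Results.MP_18fff8_lc.No
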